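import Pool.Agent.H648_BA.Kelley
import Pool.Agent.H648_BA.Sigma

/-!
# Complete Boolean algebras with a continuous outer measure all of whose countably generated complete
subalgebras admit measures

Let `B` be a complete Boolean algebra that carries a continuous outer measure `m` and such that every
countably generated complete subalgebra of `B` admits a measure. Then `B` admits a measure.

Proof. For `t > 0` the set `C = {b | t ≤ m b}` has a positive intersection number. Otherwise there are
countably many finite weighted families in `C` that witness the failure; the countably many elements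
that occur in them lie in a countably generated complete subalgebra `A`, which has a measure `μ`, and
`m` is absolutely continuous with respect to `μ` on `A` (continuity of `m`), so that `μ` is bounded
below on `C ∩ A`, which bounds the intersection numbers of the families from below. Kelley's theorem
yields a strictly positive finitely additive measure on `B`. Its countably additive part is strictly
positive, again by the continuity of `m`.
-/

set_option autoImplicit false

namespace Pool.Agent.Results.MP_2d6919_lc.ContinuousOuterMeasure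

open Pool.Agent.H648BA Filter Topology Function
open scoped ENNReal

variable {B : Type*} [CompleteBooleanAlgebra B]

lemma generated_isComplete (S : Set B) : IsCompleteSubalgebra (generated S) := by
  refine ⟨fun a ha => ?_, fun T hT => ?_, fun T hT => ?_⟩
  · intro A hA; exact hA.1.compl_mem a (ha A hA)
  · intro A hA; exact hA.1.sSup_mem T (fun x hx => hT hx A hA)
  · intro A hA; exact hA.1.sInf_mem T (fun x hx => hT hx A hA)

lemma subset_generated (S : Set B) : S ⊆ generated S := fun _ hx _ hA => hA.2 hx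

section sub

variable {A : Set B} (hA : IsCompleteSubalgebra A)
include hA

lemma bot_mem : (⊥ : B) ∈ A := by
  have := hA.sSup_mem ∅ (Set.empty_subset _)
  simpa using this

lemma sup_mem {a b : B} (ha : a ∈ A) (hb : b ∈ A) : a ⊔ b ∈ A := by
  have := hA.sSup_mem {a, b} (by rintro x (rfl | rfl) <;> assumption)
  simpa using this

lemma inf_mem {a b : B} (ha : a ∈ A) (hb : b ∈ A) : a ⊓ b ∈ A := by
  have := hA.sInf_mem {a, b} (by rintro x (rfl | rfl) <;> assumption)
  simpa using this

lemma sdiff_mem {a b : B} (ha : a ∈ A) (hb : b ∈ A) : a \ b ∈ A := by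
  rw [sdiff_eq]; exact inf_mem hA ha (hA.compl_mem b hb)

lemma top_mem : (⊤ : B) ∈ A := by
  have := hA.compl_mem ⊥ (bot_mem hA)
  simpa using this

lemma iSup_mem {f : ℕ → B} (hf : ∀ n, f n ∈ A) : ⨆ n, f n ∈ A :=
  hA.sSup_mem _ (by rintro x ⟨n, rfl⟩; exact hf n)

lemma iInf_mem {f : ℕ → B} (hf : ∀ n, f n ∈ A) : ⨅ n, f n ∈ A :=
  hA.sInf_mem _ (by rintro x ⟨n, rfl⟩; exact hf n)

lemma pu_mem {f : ℕ → B} (hf : ∀ n, f n ∈ A) (K : ℕ) : pu f K ∈ A := by
  induction K with
  | zero => simpa [pu] using bot_mem hA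
  | succ K ih => rw [pu_succ]; exact sup_mem hA (hf K) ih

variable {μ : B → ℝ} (hμ : IsMeasureOn A μ)
include hμ

lemma meas_bot : μ ⊥ = 0 := by
  have h := hμ.sigma_add (fun _ => ⊥) (fun _ => bot_mem hA) (fun i j _ => disjoint_bot_left)
  have h1 := h.summable
  exact (summable_const_iff (μ ⊥)).mp h1

lemma meas_add {a b : B} (ha : a ∈ A) (hb : b ∈ A) (hab : Disjoint a b) : μ (a ⊔ b) = μ a + μ b := by
  let f : ℕ → B := fun n => if n = 0 then a else if n = 1 then b else ⊥
  have hf : ∀ n, f n ∈ A := by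
    intro n; simp only [f]; split_ifs
    · exact ha
    · exact hb
    · exact bot_mem hA
  have hd : Pairwise (Disjoint on f) := by
    intro i j hij
    simp only [onFun, f]
    split_ifs <;> first | exact disjoint_bot_left | exact disjoint_bot_right | exact hab | exact hab.symm | omega
  have h := hμ.sigma_add f hf hd
  have hs : ⨆ n, f n = a ⊔ b := by
    apply le_antisymm
    · apply iSup_le; intro n; simp only [f]; split_ifs
      · exact le_sup_left
      · exact le_sup_right
      · exact bot_le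
    · apply sup_le
      · exact le_iSup_of_le 0 (by simp [f])
      · exact le_iSup_of_le 1 (by simp [f])
  rw [hs] at h
  have h2 : HasSum (fun n => μ (f n)) (∑ n ∈ Finset.range 2, μ (f n)) := by
    apply hasSum_sum_of_ne_finset_zero
    intro n hn
    have : 2 ≤ n := by
      rw [Finset.mem_range] at hn
      omega
    have e : f n = ⊥ := by simp only [f]; split_ifs <;> first | omega | rfl
    rw [e, meas_bot hA hμ]
  have h3 := h.unique h2
  rw [h3, Finset.sum_range_succ, Finset.sum_range_succ]
  simp [f]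

lemma meas_mono {a b : B} (ha : a ∈ A) (hb : b ∈ A) (hab : a ≤ b) : μ a ≤ μ b := by
  have h : b = a ⊔ (b \ a) := by rw [sup_sdiff_cancel_right hab]
  rw [h, meas_add hA hμ ha (sdiff_mem hA hb ha) disjoint_sdiff_self_right]
  have := hμ.nonneg _ (sdiff_mem hA hb ha)
  linarith

lemma meas_iSup_le {f : ℕ → B} (hf : ∀ n, f n ∈ A) {s : ℕ → ℝ} (hs : Summable s)
    (hfs : ∀ n, μ (f n) ≤ s n) : μ (⨆ n, f n) ≤ ∑' n, s n := by
  let g : ℕ → B := fun n => f n \ pu f n
  have hgA : ∀ n, g n ∈ A := fun n => sdiff_mem hA (hf n) (pu_mem hA hf n)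
  have hle : ∀ {i j : ℕ}, i < j → Disjoint (g i) (g j) := by
    intro i j hij
    have h1 : g i ≤ pu f j := by
      refine sdiff_le.trans ?_
      exact Finset.le_sup (f := f) (Finset.mem_range.mpr hij)
    exact (disjoint_sdiff_self_right (x := pu f j) (y := f j)).mono_left h1
  have hd : Pairwise (Disjoint on g) := by
    intro i j hij
    rcases lt_or_gt_of_ne hij with h | h
    · exact hle h
    · exact (hle h).symm
  have hpu : ∀ n, pu g n = pu f n := by
    intro n
    induction n with
    | zero => rfl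
    | succ n ih => rw [pu_succ, pu_succ, ih]; exact sdiff_sup_self (pu f n) (f n)
  have hsup : ⨆ n, g n = ⨆ n, f n := by
    rw [← iSup_pu g, ← iSup_pu f]
    exact iSup_congr hpu
  have h := hμ.sigma_add g hgA hd
  rw [hsup] at h
  have hgs : ∀ n, μ (g n) ≤ s n := fun n => (meas_mono hA hμ (hgA n) (hf n) sdiff_le).trans (hfs n)
  rw [← h.tsum_eq]
  exact h.summable.tsum_le_tsum hgs hs

open Classical in
/-- A bound for the average of `μ` over a weighted family, by the largest weight below which a nonzero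
element lies. -/
lemma weighted (w : B → ℝ) (F : Finset B) : (∀ b ∈ F, b ∈ A) → ∀ (M : ℝ) (y : B), y ∈ A →
    (∀ x : B, x ≠ ⊥ → x ≤ y → ∑ b ∈ F, (if x ≤ b then w b else 0) ≤ M) →
    ∑ b ∈ F, w b * μ (b ⊓ y) ≤ M * μ y := by
  induction F using Finset.induction_on with
  | empty =>
    intro _ M y hy h
    by_cases hyb : y = ⊥
    · rw [hyb, meas_bot hA hμ]; simp
    · have := h y hyb le_rfl
      simp only [Finset.sum_empty] at this ⊢
      exact mul_nonneg this (hμ.nonneg y hy)
  | insert c F hc ih =>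
    intro hF M y hy h
    have hcA : c ∈ A := hF c (Finset.mem_insert_self c F)
    have hFA : ∀ b ∈ F, b ∈ A := fun b hb => hF b (Finset.mem_insert_of_mem hb)
    have h1 := ih hFA (M - w c) (y ⊓ c) (inf_mem hA hy hcA) (by
      intro x hx hxy
      have := h x hx (hxy.trans inf_le_left)
      rw [Finset.sum_insert hc, if_pos (hxy.trans inf_le_right)] at this
      linarith)
    have h2 := ih hFA M (y \ c) (sdiff_mem hA hy hcA) (by
      intro x hx hxy
      have := h x hx (hxy.trans sdiff_le)
      have hnot : ¬ x ≤ c := by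
        intro hxc
        apply hx
        have hd : Disjoint (y \ c) c := disjoint_sdiff_self_left
        exact le_bot_iff.mp (hd hxy hxc)
      rw [Finset.sum_insert hc, if_neg hnot] at this
      linarith)
    have hsplit : ∀ b ∈ A, μ (b ⊓ y) = μ (b ⊓ (y ⊓ c)) + μ (b ⊓ (y \ c)) := by
      intro b hb
      rw [← meas_add hA hμ (inf_mem hA hb (inf_mem hA hy hcA)) (inf_mem hA hb (sdiff_mem hA hy hcA))]
      · rw [← inf_sup_left, sup_inf_sdiff]
      · exact (disjoint_sdiff_self_right (x := c) (y := y)).mono (inf_le_right.trans inf_le_right) inf_le_right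
    have hy2 : μ y = μ (y ⊓ c) + μ (y \ c) := by
      rw [← meas_add hA hμ (inf_mem hA hy hcA) (sdiff_mem hA hy hcA)]
      · rw [sup_inf_sdiff]
      · exact (disjoint_sdiff_self_right (x := c) (y := y)).mono inf_le_right le_rfl
    rw [Finset.sum_insert hc]
    have h3 : ∑ b ∈ F, w b * μ (b ⊓ y) = ∑ b ∈ F, w b * μ (b ⊓ (y ⊓ c)) + ∑ b ∈ F, w b * μ (b ⊓ (y \ c)) := by
      rw [← Finset.sum_add_distrib]
      apply Finset.sum_congr rfl
      intro b hb
      rw [hsplit b (hFA b hb)]; ring
    rw [h3, inf_comm c y, hy2]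
    nlinarith

/-- Absolute continuity of a continuous outer measure with respect to a measure on `A`. -/
lemma abs_cont {m : B → ℝ} (hm : IsContinuousOuterMeasure m) {t : ℝ} (ht : 0 < t) :
    ∃ ε : ℝ, 0 < ε ∧ ∀ a ∈ A, t ≤ m a → ε ≤ μ a := by
  by_contra hcon
  push Not at hcon
  have hex : ∀ i : ℕ, ∃ a ∈ A, t ≤ m a ∧ μ a < (1 / 2 : ℝ) ^ i := fun i => hcon _ (by positivity)
  choose a haA hta hμa using hex
  let b : ℕ → B := fun k => ⨆ i, a (k + i)
  have hbA : ∀ k, b k ∈ A := fun k => iSup_mem hA (fun i => haA _)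
  have hbμ : ∀ k, μ (b k) ≤ (1 / 2 : ℝ) ^ k * 2 := by
    intro k
    have hs : HasSum (fun i : ℕ => (1 / 2 : ℝ) ^ k * (1 / 2) ^ i) ((1 / 2) ^ k * 2) :=
      hasSum_geometric_two.mul_left _
    have h := meas_iSup_le hA hμ (fun i => haA (k + i)) hs.summable (fun i => by
      rw [← pow_add]; exact (hμa (k + i)).le)
    rwa [hs.tsum_eq] at h
  have hanti : Antitone b := by
    apply antitone_nat_of_succ_le
    intro k
    apply iSup_le
    intro i
    refine le_iSup_of_le (i + 1) (le_of_eq ?_)
    congr 1; omega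
  have hinf : ⨅ k, b k = ⊥ := by
    by_contra hne
    have hpos := hμ.pos _ (iInf_mem hA hbA) hne
    have hle : ∀ k, μ (⨅ k, b k) ≤ (1 / 2 : ℝ) ^ k * 2 := fun k =>
      (meas_mono hA hμ (iInf_mem hA hbA) (hbA k) (iInf_le b k)).trans (hbμ k)
    have ht0 : Tendsto (fun k : ℕ => (1 / 2 : ℝ) ^ k * 2) atTop (𝓝 (0 * 2)) :=
      (tendsto_pow_atTop_nhds_zero_of_lt_one (by norm_num) (by norm_num)).mul_const 2
    have := ge_of_tendsto' ht0 hle
    linarith
  have hlim := hm.cont b hanti hinf
  have hge : ∀ k, t ≤ m (b k) := fun k =>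
    (hta k).trans (hm.mono _ _ (le_iSup_of_le 0 (by simp)))
  have := ge_of_tendsto' hlim hge
  linarith

end sub

/-- The sets `{b | t ≤ m b}` have positive intersection number. -/
lemma inter_of [Nontrivial B] (h : ∀ S : Set B, S.Countable → ∃ μ : B → ℝ, IsMeasureOn (generated S) μ)
    {m : B → ℝ} (hm : IsContinuousOuterMeasure m) {t : ℝ} (ht : 0 < t) :
    ∃ δ : ℝ, 0 < δ ∧ Inter {b : B | t ≤ m b} δ := by
  classical
  by_contra hcon
  push Not at hcon
  have hex : ∀ j : ℕ, ∃ n : B →₀ ℕ, (∀ b ∈ n.support, t ≤ m b) ∧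
      ∀ x : B, x ≠ ⊥ → ∑ b ∈ n.support, (if x ≤ b then (n b : ℝ) else 0) <
        (1 / ((j : ℝ) + 1)) * ∑ b ∈ n.support, (n b : ℝ) := by
    intro j
    have := hcon (1 / ((j : ℝ) + 1)) (by positivity)
    unfold Pool.Agent.H648BA.Inter at this
    push Not at this
    obtain ⟨n, hn, hx⟩ := this
    exact ⟨n, hn, hx⟩
  choose n hn hx using hex
  let S : Set B := ⋃ j, ((n j).support : Set B)
  have hS : S.Countable := Set.countable_iUnion (fun j => (n j).support.countable_toSet)
  obtain ⟨μ, hμ⟩ := h S hS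
  have hA := generated_isComplete S
  obtain ⟨ε, hε, hεμ⟩ := abs_cont hA hμ hm ht
  have htop := top_mem hA
  have key : ∀ j : ℕ, ε ≤ 1 / ((j : ℝ) + 1) * μ ⊤ := by
    intro j
    set W := ∑ b ∈ (n j).support, (n j b : ℝ) with hW
    have hWpos : 0 < W := by
      have h3 := hx j ⊤ top_ne_bot
      have h0 : 0 ≤ ∑ b ∈ (n j).support, (if (⊤ : B) ≤ b then (n j b : ℝ) else 0) :=
        Finset.sum_nonneg (fun b _ => by split_ifs <;> positivity)
      have h1 : 0 < 1 / ((j : ℝ) + 1) * W := lt_of_le_of_lt h0 h3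
      have h2 : 0 < 1 / ((j : ℝ) + 1) := by positivity
      exact (pos_iff_pos_of_mul_pos h1).mp h2
    have hSA : ∀ b ∈ (n j).support, b ∈ generated S := fun b hb =>
      subset_generated S (Set.mem_iUnion.mpr ⟨j, hb⟩)
    have hw := weighted hA hμ (fun b => (n j b : ℝ)) (n j).support hSA
      (1 / ((j : ℝ) + 1) * W) ⊤ htop (fun x hx0 _ => by
        refine le_trans (le_of_eq ?_) (hx j x hx0).le
        apply Finset.sum_congr rfl
        intro b _
        congr)
    have hlow : ε * W ≤ ∑ b ∈ (n j).support, (n j b : ℝ) * μ (b ⊓ ⊤) := by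
      rw [hW, Finset.mul_sum]
      apply Finset.sum_le_sum
      intro b hb
      rw [inf_top_eq, mul_comm]
      exact mul_le_mul_of_nonneg_left (hεμ b (hSA b hb) (hn j b hb)) (by positivity)
    have h5 : ε * W ≤ (1 / ((j : ℝ) + 1) * μ ⊤) * W := by
      refine hlow.trans (hw.trans (le_of_eq ?_)); ring
    exact le_of_mul_le_mul_right h5 hWpos
  have hlim : Tendsto (fun j : ℕ => 1 / ((j : ℝ) + 1) * μ ⊤) atTop (𝓝 (0 * μ ⊤)) :=
    tendsto_one_div_add_atTop_nhds_zero_nat.mul_const _
  have := ge_of_tendsto' hlim key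
  linarith

/-- A complete subalgebra is countably generated if it is the smallest complete subalgebra of `B`
containing some countable subset of `B`. -/
def IsCountablyGenerated (A : Set B) : Prop := ∃ S : Set B, S.Countable ∧ A = generated S

/-- Let `B` be a complete Boolean algebra with a continuous outer measure, all of whose countably
generated complete subalgebras admit measures. Then `B` admits a measure. -/
theorem result {B : Type*} [CompleteBooleanAlgebra B]
    (h : ∀ A : Set B, IsCountablyGenerated A → ∃ μ : B → ℝ, IsMeasureOn A μ)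
    (m : B → ℝ) (hm : IsContinuousOuterMeasure m) :
    ∃ μ : B → ℝ, IsMeasureOn Set.univ μ := by
  classical
  rcases subsingleton_or_nontrivial B with hsub | hnon
  · refine ⟨fun _ => 0, fun _ _ => le_rfl, fun a _ ha => absurd (Subsingleton.elim _ _) ha,
      fun f _ _ => hasSum_zero⟩
  have hi : ∀ n : ℕ, ∃ δ : ℝ, 0 < δ ∧ Inter {b : B | 1 / ((n : ℝ) + 1) ≤ m b} δ := fun n =>
    inter_of (fun S hS => h _ ⟨S, hS, rfl⟩) hm (by positivity)
  choose δ hδ hInter using hi
  have hk := fun n : ℕ => kelley {b : B | 1 / ((n : ℝ) + 1) ≤ m b} (δ n) (hδ n).le (hInter n)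
  choose ν hν0 hν1 hνadd hνC using hk
  let N : B → ℝ≥0∞ := fun b => ∑' n, ENNReal.ofReal ((1 / 2) ^ n * ν n b)
  have hνbot : ∀ n, ν n ⊥ = 0 := by
    intro n
    have := hνadd n ⊥ ⊥ disjoint_bot_left
    rw [sup_idem] at this
    linarith
  have h0 : N ⊥ = 0 := by simp [N, hνbot]
  have hadd : ∀ a b, Disjoint a b → N (a ⊔ b) = N a + N b := by
    intro a b hab
    simp only [N]
    rw [← ENNReal.tsum_add]
    apply tsum_congr
    intro n
    rw [hνadd n a b hab, mul_add, ENNReal.ofReal_add]
    · exact mul_nonneg (by positivity) (hν0 n a)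
    · exact mul_nonneg (by positivity) (hν0 n b)
  have htop : N ⊤ ≠ ∞ := by
    have hs : Summable (fun n : ℕ => (1 / 2 : ℝ) ^ n * ν n ⊤) := by
      simp only [hν1, mul_one]
      exact summable_geometric_two
    simp only [N]
    rw [← ENNReal.ofReal_tsum_of_nonneg (fun n => mul_nonneg (by positivity) (hν0 n ⊤)) hs]
    exact ENNReal.ofReal_ne_top
  have hfin : ∀ b, N b ≠ ∞ := fun b =>
    ne_top_of_le_ne_top htop (mono_of_add hadd le_top)
  have hpos : ∀ b, b ≠ ⊥ → N b ≠ 0 := by
    intro b hb hz
    obtain ⟨n, hn⟩ := exists_nat_one_div_lt (hm.pos b hb)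
    have h1 : δ n ≤ ν n b := hνC n b hn.le
    simp only [N, ENNReal.tsum_eq_zero] at hz
    have h2 := hz n
    rw [ENNReal.ofReal_eq_zero] at h2
    have h3 : 0 < (1 / 2 : ℝ) ^ n * ν n b := mul_pos (by positivity) (lt_of_lt_of_le (hδ n) h1)
    linarith
  have hcfin : ∀ b, ca N b ≠ ∞ := fun b => ne_top_of_le_ne_top (hfin b) (ca_le_self h0 b)
  refine ⟨fun b => (ca N b).toReal, fun b _ => ENNReal.toReal_nonneg, fun b _ hb =>
    ENNReal.toReal_pos (ca_ne_zero hm h0 hadd hpos b hb) (hcfin b), fun f _ hf => ?_⟩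
  have h1 := ca_add h0 hadd hf
  have h2 : ∑' n, ca N (f n) ≠ ∞ := by rw [← h1]; exact hcfin _
  change HasSum (fun n => (ca N (f n)).toReal) ((ca N (⨆ n, f n)).toReal)
  rw [h1, ENNReal.tsum_toReal_eq (fun n => hcfin (f n))]
  exact ENNReal.hasSum_toReal h2

end Pool.Agent.Results.MP_2d6919_lc.ContinuousOuterMeasure
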